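import Mathlib
import Pool.Agent.Q137.AONT.Main

set_option autoImplicit false

/-!
# Deleting a coordinate from an all-or-nothing transform

There is a (1,3,6)-all-or-nothing transform, but there is no (1,2,6)-all-or-nothing transform.
So the existence of a `(t,s,v)`-AONT does not imply the existence of a `(t,s-1,v)`-AONT.
-/

namespace Pool.Agent.Results.MP_2d9e0f_co.OrderSix

/-- `φ : X^s → X^s` is a `t`-all-or-nothing transform: it is a bijection, and for all sets `I`, `J`
of `t` coordinates the map sending `x` to the input coordinates in `I` together with the output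
coordinates outside `J` is a bijection. -/
def IsAONT {X : Type*} (t s : ℕ) (φ : (Fin s → X) → (Fin s → X)) : Prop :=
  Function.Bijective φ ∧
    ∀ I J : Finset (Fin s), I.card = t → J.card = t →
      Function.Bijective (fun x : Fin s → X =>
        ((fun i => x i.1, fun j => φ x j.1) : ({i // i ∈ I} → X) × ({j // j ∉ J} → X)))

/-- There is a `(t,s,v)`-AONT: one over the alphabet `X = Fin v` with `v` elements. -/
def AONTExists (t s v : ℕ) : Prop :=
  ∃ φ : (Fin s → Fin v) → (Fin s → Fin v), IsAONT t s φ

/-- Existence depends only on the size of the alphabet: an AONT over any alphabet `X` with `v`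
elements gives one over `Fin v`, and conversely. -/
theorem aontExists_iff {X : Type*} [Fintype X] (t s : ℕ) :
    AONTExists t s (Fintype.card X) ↔ ∃ φ : (Fin s → X) → (Fin s → X), IsAONT t s φ :=
  Q137.AONT.exists_iff_of_equiv (Fintype.equivFin X).symm t s

/-- **The answer is negative.** There is a `(1,3,6)`-AONT and there is no `(1,2,6)`-AONT. Hence it is
not true that for all `v ≥ 1` and `1 ≤ t ≤ s - 1` the existence of a `(t,s,v)`-AONT implies the
existence of a `(t,s-1,v)`-AONT. -/
theorem result :
    (AONTExists 1 3 6 ∧ ¬ AONTExists 1 2 6) ∧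
      ¬ ∀ v t s : ℕ, 1 ≤ v → 1 ≤ t → t ≤ s - 1 → AONTExists t s v → AONTExists t (s - 1) v := by
  have h1 : AONTExists 1 3 6 := Q137.AONT.exists_one_three_six
  have h2 : ¬ AONTExists 1 2 6 := Q137.AONT.not_exists_one_two_six
  refine ⟨⟨h1, h2⟩, fun h => h2 (h 6 1 3 (by norm_num) le_rfl (by norm_num) h1)⟩

end Pool.Agent.Results.MP_2d9e0f_co.OrderSix
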